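import Pool.Agent.Y524F.Bridge

/-!
# A non-minimal balanced trisection which is not a stabilization

Group trisections (Abrams, Gay, Kirby, *Group trisections and smooth 4-manifolds*, Geom. Topol. 22
(2018)) are the algebraic form of trisections of closed oriented smooth 4-manifolds: a balanced
`(g,k)` trisection is a triple of epimorphisms from the surface group of genus `g` onto the free
group of rank `g` (the three handlebodies) such that each pairwise push-out is free of rank `k`
(the three sectors).

We exhibit an `(8,4)` trisection `T` and a `(5,3)` trisection `T₀` such that one stabilization of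
`T` is isomorphic to the double stabilization of `T₀` (so they belong to the same 4-manifold and
`T` is not minimal), while `T` is not a stabilization of any trisection at all, even up to
arbitrary isomorphisms of closed surface groups and relabelling of the handlebodies.
-/

namespace Pool.Agent.Results.MP_fc0641_gt.NonStabilized

open Pool.Agent.Y524F

theorem result : ∃ T₀ T : Triple, T₀.g = 5 ∧ IsTrisection T₀ 3 ∧ T.g = 8 ∧ IsTrisection T 4 ∧
    Iso (stab (stab T₀)) (stab T) ∧ (∀ U k, IsTrisection U k → ¬ WeakIso (stab U) T) ∧
    ¬ Minimal T ∧
    ∀ (M : Triple) (k n : ℕ), IsTrisection M k → Minimal M → ¬ Iso (stab^[n] M) T :=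
  main

end Pool.Agent.Results.MP_fc0641_gt.NonStabilized
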